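import Mathlib

namespace Pool.Agent.H.MP_96eab8_al
open MvPolynomial Matrix

abbrev Pl := MvPolynomial (Fin 2 × Fin 2) ℂ
abbrev M2 (B : Type) := Matrix (Fin 2) (Fin 2) B

noncomputable def q : Pl := X (0, 0) * X (1, 1) + (-(X (0, 1) * X (1, 0)) - 1)

lemma q_irr : Irreducible q := by
  refine irreducible_mul_X_add _ _ _ (X_ne_zero _) (by simp) (fun h => ?_) ?_
  · have h1 := vars_sub_subset _ (q := 1) h
    rw [vars_neg, vars_one, Finset.union_empty] at h1
    have := vars_mul _ _ h1
    simp at this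
  · rw [(X_prime (R := ℂ)).irreducible.isRelPrime_iff_not_dvd]
    intro h
    simpa using map_dvd (eval fun _ => (0 : ℂ)) h

/-- the coordinate ring of SU(2) -/
def R : Type := Pl ⧸ Ideal.span {q}

noncomputable instance : CommRing R := inferInstanceAs (CommRing (Pl ⧸ Ideal.span {q}))
noncomputable instance : Algebra ℂ R := inferInstanceAs (Algebra ℂ (Pl ⧸ Ideal.span {q}))
instance : IsDomain R :=
  haveI := (Ideal.span_singleton_prime q_irr.ne_zero).2 q_irr.prime
  inferInstanceAs (IsDomain (Pl ⧸ Ideal.span {q}))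

noncomputable def mk : Pl →ₐ[ℂ] R := Ideal.Quotient.mkₐ ℂ (Ideal.span {q})
noncomputable def uR : M2 R := fun a b => mk (X (a, b))

lemma mk_q : mk q = 0 := Ideal.Quotient.eq_zero_iff_mem.2 (Ideal.mem_span_singleton_self q)

lemma det_uR : uR.det = 1 := by
  have := mk_q
  simp only [q, map_add, map_mul, map_sub, map_neg, map_one] at this
  rw [det_fin_two]
  simp only [uR]
  linear_combination this

lemma R_ind {p : R → Prop} (h0 : ∀ c, p (algebraMap ℂ R c)) (h1 : ∀ a b, p (uR a b))
    (h2 : ∀ x y, p x → p y → p (x + y)) (h3 : ∀ x y, p x → p y → p (x * y)) (r : R) : p r := by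
  obtain ⟨f, rfl⟩ : ∃ f, mk f = r := Ideal.Quotient.mkₐ_surjective ℂ _ r
  induction f using MvPolynomial.induction_on with
  | C c => rw [← algebraMap_eq, AlgHom.commutes]; exact h0 c
  | add f g hf hg => rw [map_add]; exact h2 _ _ hf hg
  | mul_X f i hf => rw [map_mul]; exact h3 _ _ hf (h1 i.1 i.2)

lemma lift_r {B : Type} [CommRing B] (c : ℂ →+* B) (M : M2 B) (h : M.det = 1) :
    ∃ φ : R →+* B, (∀ z, φ (algebraMap ℂ R z) = c z) ∧ ∀ a b, φ (uR a b) = M a b := by
  refine ⟨Ideal.Quotient.lift _ (eval₂Hom c fun p => M p.1 p.2) fun a ha => ?_, fun z => ?_,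
    fun a b => ?_⟩
  · obtain ⟨b, rfl⟩ := Ideal.mem_span_singleton'.1 ha
    rw [det_fin_two] at h
    have : eval₂Hom c (fun p => M p.1 p.2) q = 0 := by
      simp only [q, map_add, map_mul, map_sub, map_neg, map_one, eval₂Hom_X']
      linear_combination h
    rw [map_mul, this, mul_zero]
  · exact (Ideal.Quotient.lift_mk _ _ _ (a := C z)).trans (eval₂Hom_C _ _ _)
  · exact (Ideal.Quotient.lift_mk _ _ _ (a := X (a, b))).trans (eval₂Hom_X' _ _ _)

lemma ex_st : ∃ φ : R →+* R, (∀ z, φ (algebraMap ℂ R z) = algebraMap ℂ R (star z)) ∧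
    ∀ a b, φ (uR a b) = uR.adjugate b a :=
  lift_r ((algebraMap ℂ R).comp (starRingEnd ℂ)) uR.adjugateᵀ
    (by rw [det_transpose, det_adjugate, det_uR, one_pow])

noncomputable instance : StarRing R where
  star := ex_st.choose
  star_involutive r := by
    obtain ⟨h1, h2⟩ := ex_st.choose_spec
    generalize ex_st.choose = φ at h1 h2
    induction r using R_ind with
    | h0 c => rw [h1, h1, star_star]
    | h1 a b => fin_cases a <;> fin_cases b <;> simp [h2, adjugate_fin_two]
    | h2 x y hx hy => rw [map_add, map_add, hx, hy]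
    | h3 x y hx hy => rw [map_mul, map_mul, hx, hy]
  star_mul x y := by rw [mul_comm x]; exact map_mul _ _ _
  star_add := map_add _

instance : StarModule ℂ R where
  star_smul c x := by
    rw [Algebra.smul_def, Algebra.smul_def, star_mul, mul_comm]
    congr 1
    exact ex_st.choose_spec.1 c

lemma star_uR : star uR = uR.adjugate := by
  ext a b; exact ex_st.choose_spec.2 b a

lemma uR1 : star uR * uR = 1 := by rw [star_uR, adjugate_mul, det_uR, one_smul]
lemma uR2 : uR * star uR = 1 := by rw [star_uR, mul_adjugate, det_uR, one_smul]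

lemma hom_ext {B F G : Type} [Ring B] [Algebra ℂ B] [FunLike F R B] [AlgHomClass F ℂ R B]
    [FunLike G R B] [AlgHomClass G ℂ R B] (φ : F) (ψ : G) (h : uR.map φ = uR.map ψ) (r : R) :
    φ r = ψ r := by
  induction r using R_ind with
  | h0 c => rw [AlgHomClass.commutes, AlgHomClass.commutes]
  | h1 a b => exact congrFun (congrFun h a) b
  | h2 x y hx hy => rw [map_add, map_add, hx, hy]
  | h3 x y hx hy => rw [map_mul, map_mul, hx, hy]

lemma liftS {B : Type} [CommRing B] [Algebra ℂ B] [StarRing B] [StarModule ℂ B] (M : M2 B)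
    (h : M.det = 1) (hu : star M * M = 1) : ∃ φ : R →⋆ₐ[ℂ] B, uR.map φ = M := by
  obtain ⟨φ, h1, h2⟩ := lift_r (algebraMap ℂ B) M h
  have h3 : star M = M.adjugate := by
    rw [← mul_one (star M), ← one_smul B (1 : M2 B), ← h, ← mul_adjugate, ← mul_assoc, hu, one_mul]
  have h4 : uR.map φ = M := by ext a b; exact h2 a b
  refine ⟨{ φ with commutes' := h1, map_star' := fun r => ?_ }, h4⟩
  change φ (star r) = star (φ r)
  induction r using R_ind with
  | h0 c => rw [← algebraMap_star_comm, h1, h1, algebraMap_star_comm]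
  | h1 a b =>
    have e1 : star (uR a b) = uR.adjugate b a := congrFun (congrFun star_uR b) a
    have e2 : star (M a b) = M.adjugate b a := congrFun (congrFun h3 b) a
    rw [e1, h2, e2, ← h4]
    exact congrFun (congrFun (RingHom.map_adjugate φ uR) b) a
  | h2 x y hx hy => rw [star_add, map_add, map_add, hx, hy, star_add]
  | h3 x y hx hy => rw [star_mul, map_mul, map_mul, hx, hy, star_mul]

end Pool.Agent.H.MP_96eab8_al
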