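import Pool.Agent.H.MP_96eab8_al.A

namespace Pool.Agent.H.MP_96eab8_al
open Matrix SkewMonoidAlgebra Complex

section cs
variable {B C : Type} [Ring B] [Algebra ℂ B] [Ring C] [Algebra ℂ C]

/-- scalar matrices -/
noncomputable def cs (B : Type) [Ring B] [Algebra ℂ B] : M2 ℂ →+* M2 B := (algebraMap ℂ B).mapMatrix

lemma cs_apply (g : M2 ℂ) (a b : Fin 2) : cs B g a b = algebraMap ℂ B (g a b) := rfl

lemma cs_map {F : Type} [FunLike F B C] [AlgHomClass F ℂ B C] (φ : F) (g : M2 ℂ) :
    (cs B g).map φ = cs C g := by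
  ext a b; exact AlgHomClass.commutes φ _

lemma star_cs [StarRing B] [StarModule ℂ B] (g : M2 ℂ) : star (cs B g) = cs B (star g) := by
  ext a b; simp [cs_apply, ← algebraMap_star_comm]

lemma conj_map {F : Type} [FunLike F B C] [AlgHomClass F ℂ B C] (φ : F) (g h : M2 ℂ) (M : M2 B) :
    (cs B g * M * cs B h).map φ = cs C g * M.map φ * cs C h := by
  rw [Matrix.map_mul, Matrix.map_mul, cs_map, cs_map]

omit [Algebra ℂ B] [Algebra ℂ C] in
lemma star_map [StarRing B] [StarRing C] {F : Type} [FunLike F B C] [StarHomClass F B C] (φ : F)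
    (M : M2 B) : (star M).map φ = star (M.map φ) := by
  ext a b; simp [map_star]

end cs

abbrev U2 := unitaryGroup (Fin 2) ℂ

lemma ex_al (g : U2) : ∃ φ : R →⋆ₐ[ℂ] R, uR.map φ = cs R (star g.1) * uR * cs R g.1 := by
  have h1 : cs R (star g.1) * cs R g.1 = 1 := by rw [← map_mul, g.2.1, map_one]
  have h2 : cs R g.1 * cs R (star g.1) = 1 := by rw [← map_mul, g.2.2, map_one]
  refine liftS _ ?_ ?_
  · rw [det_mul, det_mul, det_uR, mul_one, ← det_mul, h1, det_one]
  · rw [star_mul, star_mul, star_cs, star_cs, star_star]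
    calc _ = cs R (star g.1) * (star uR * (cs R g.1 * cs R (star g.1)) * uR) * cs R g.1 := by
          simp only [mul_assoc]
      _ = 1 := by rw [h2, mul_one, uR1, mul_one, h1]

noncomputable def al (g : U2) : R →⋆ₐ[ℂ] R := (ex_al g).choose
lemma al_u (g : U2) : uR.map (al g) = cs R (star g.1) * uR * cs R g.1 := (ex_al g).choose_spec

lemma al_one (r : R) : al 1 r = r := hom_ext (al 1) (AlgHom.id ℂ R) (by simp [al_u]) r

lemma al_mul (g h : U2) (r : R) : al (g * h) r = al g (al h r) :=
  hom_ext (al (g * h)) ((al g).comp (al h)) (by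
    change _ = (uR.map (al h)).map (al g)
    rw [al_u, al_u, conj_map, al_u]
    simp only [Submonoid.coe_mul, star_mul, map_mul, mul_assoc]) r

noncomputable def g0 : M2 ℂ := !![1, 0; 0, -1]
noncomputable def g1 : M2 ℂ := !![(1 + I) / 2, (1 + I) / 2; (I - 1) / 2, (1 - I) / 2]

lemma sg0 : star g0 = g0 := by
  ext a b; fin_cases a <;> fin_cases b <;> simp [g0]

lemma sg1 : star g1 = !![(1 - I) / 2, (-I - 1) / 2; (1 - I) / 2, (1 + I) / 2] := by
  ext a b; fin_cases a <;> fin_cases b <;> simp [g1] <;> ring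

lemma g0u : g0 ∈ U2 := by
  rw [mem_unitaryGroup_iff', sg0]
  ext a b; fin_cases a <;> fin_cases b <;> simp [g0]

lemma g1u : g1 ∈ U2 := by
  rw [mem_unitaryGroup_iff', sg1]
  ext a b; fin_cases a <;> fin_cases b <;> simp [g1] <;> ring_nf <;> simp <;> norm_num

noncomputable def gg : Fin 2 → U2 := ![⟨g0, g0u⟩, ⟨g1, g1u⟩]

abbrev Γ := FreeGroup (Fin 2)
noncomputable def rho : Γ →* U2 := FreeGroup.lift gg

noncomputable instance : MulSemiringAction Γ R where
  smul γ r := al (rho γ) r
  one_smul r := by change al (rho 1) r = r; rw [map_one, al_one]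
  mul_smul a b r := by change al (rho (a * b)) r = al _ (al _ r); rw [map_mul, al_mul]
  smul_zero _ := map_zero (al _)
  smul_add _ := map_add (al _)
  smul_one _ := map_one (al _)
  smul_mul _ := map_mul (al _)

lemma sm_def (γ : Γ) (r : R) : γ • r = al (rho γ) r := rfl

instance : SMulCommClass Γ ℂ R := ⟨fun _ c r => map_smul (al _) c r⟩

lemma sm_star (γ : Γ) (r : R) : γ • star r = star (γ • r) := map_star (al _) r

abbrev O := SkewMonoidAlgebra R Γ

lemma O_ind {p : O → Prop} (x : O) (single : ∀ g a, p (single g a))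
    (add : ∀ f g, p f → p g → p (f + g)) : p x := SkewMonoidAlgebra.induction_on' x single add

noncomputable def st : O →+ O :=
  (Finsupp.liftAddHom fun γ : Γ => (singleAddHom γ⁻¹).comp
    ((DistribSMul.toAddMonoidHom R γ⁻¹).comp (starAddEquiv (R := R)).toAddMonoidHom)).comp
      coeffAddEquiv.toAddMonoidHom

lemma st_s (γ : Γ) (r : R) : st (single γ r) = single γ⁻¹ (γ⁻¹ • star r) :=
  Finsupp.liftAddHom_apply_single _ _ _

noncomputable instance : StarRing O where
  star := st
  star_involutive x := by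
    induction x using O_ind with
    | add a b ha hb => simp only [map_add] at *; rw [ha, hb]
    | single g c => simp [st_s, sm_star]
  star_mul x y := by
    induction x using O_ind with
    | add a b ha hb => simp only [add_mul, map_add, mul_add] at *; rw [ha, hb]
    | single g c =>
      induction y using O_ind with
      | add a b ha hb => simp only [add_mul, map_add, mul_add] at *; rw [ha, hb]
      | single g' c' => simp [st_s, single_mul_single, mul_comm, mul_smul, ← sm_star]
  star_add := map_add st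

lemma star_single (γ : Γ) (r : R) : star (single γ r : O) = single γ⁻¹ (γ⁻¹ • star r) := st_s γ r

instance : StarModule ℂ O where
  star_smul r x := by
    induction x using O_ind with
    | add a b ha hb => simp [smul_add, ha, hb]
    | single g c =>
      rw [SkewMonoidAlgebra.smul_single, star_single, star_single, SkewMonoidAlgebra.smul_single,
        star_smul, smul_comm g⁻¹]

noncomputable def j : R →⋆ₐ[ℂ] O :=
  { singleOneRingHom (k := R) (G := Γ) with
    commutes' := fun _ => rfl
    map_star' := fun r => by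
      change single 1 (star r) = star (single 1 r : O)
      simp [star_single] }

lemma j_eq (r : R) : j r = single 1 r := rfl

noncomputable def t : Γ →* O := of R Γ

lemma t_eq (γ : Γ) : t γ = single γ 1 := of_apply _ _ _

lemma jt (γ : Γ) (r : R) : j r * t γ = single γ r := by simp [j_eq, t_eq, single_mul_single]
lemma tj (γ : Γ) (r : R) : t γ * j r = j (γ • r) * t γ := by simp [j_eq, t_eq, single_mul_single]
lemma star_t (γ : Γ) : star (t γ) = t γ⁻¹ := by simp [t_eq, star_single]

theorem liftO {B : Type} [Ring B] [Algebra ℂ B] [StarRing B] [StarModule ℂ B] (f : R →⋆ₐ[ℂ] B)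
    (T : Γ →* B) (h1 : ∀ γ, star (T γ) = T γ⁻¹) (h2 : ∀ γ r, f (γ • r) * T γ = T γ * f r) :
    ∃ Φ : O →⋆ₐ[ℂ] B, (∀ r, Φ (j r) = f r) ∧ ∀ γ, Φ (t γ) = T γ := by
  let Ψ : O →ₐ[ℂ] B := liftNCAlgHom (f : R →ₐ[ℂ] B) T (h2 _ _)
  have e : ∀ γ r, Ψ (single γ r) = f r * T γ := fun γ r => liftNC_single _ _ _ _
  refine ⟨{ Ψ with map_star' := fun x => ?_ }, fun r => ?_, fun γ => ?_⟩
  · change Ψ (star x) = star (Ψ x)
    induction x using O_ind with
    | add a b ha hb => simp [ha, hb]
    | single g c => rw [star_single, e, e, h2, star_mul, h1, map_star]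
  · change Ψ (single 1 r) = _
    rw [e, map_one, mul_one]
  · change Ψ (t γ) = _
    rw [t_eq, e, map_one, one_mul]

end Pool.Agent.H.MP_96eab8_al
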