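import Pool.Agent.H.MP_96eab8_al.B
import Pool.Agent.H.MP_d87fde_al.T

namespace Pool.Agent.H.MP_96eab8_al
open Matrix SkewMonoidAlgebra Complex Pool.Agent.H.MP_d87fde_al Pool.Agent.H.MP_d87fde_al.Defs
open scoped TensorProduct

noncomputable def iL : R →⋆ₐ[ℂ] R ⊗[ℂ] R :=
  { Algebra.TensorProduct.includeLeft (S := ℂ) with
    map_star' := fun r => by
      change star r ⊗ₜ 1 = star (r ⊗ₜ[ℂ] (1 : R))
      simp }

noncomputable def iR : R →⋆ₐ[ℂ] R ⊗[ℂ] R :=
  { Algebra.TensorProduct.includeRight with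
    map_star' := fun r => by
      change 1 ⊗ₜ star r = star ((1 : R) ⊗ₜ[ℂ] r)
      simp }

lemma LR (a b : R) : iL a * iR b = a ⊗ₜ b := by
  change (a ⊗ₜ[ℂ] (1 : R)) * ((1 : R) ⊗ₜ[ℂ] b) = _
  simp

lemma map_det1 {B : Type} [CommRing B] [Algebra ℂ B] [StarRing B] (φ : R →⋆ₐ[ℂ] B) :
    (uR.map φ).det = 1 := by
  have := RingHom.map_det (φ : R →+* B) uR
  rw [det_uR, map_one] at this
  exact this.symm

lemma map_u1 {B : Type} [Ring B] [Algebra ℂ B] [StarRing B] (φ : R →⋆ₐ[ℂ] B) :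
    star (uR.map φ) * uR.map φ = 1 := by
  rw [← star_map, ← Matrix.map_mul, uR1, Matrix.map_one _ (map_zero φ) (map_one φ)]

lemma map_u2 {B : Type} [Ring B] [Algebra ℂ B] [StarRing B] (φ : R →⋆ₐ[ℂ] B) :
    uR.map φ * star (uR.map φ) = 1 := by
  rw [← star_map, ← Matrix.map_mul, uR2, Matrix.map_one _ (map_zero φ) (map_one φ)]

lemma ex_DR : ∃ φ : R →⋆ₐ[ℂ] R ⊗[ℂ] R, uR.map φ = uR.map iL * uR.map iR :=
  liftS _ (by rw [det_mul, map_det1, map_det1, one_mul]) (by
    rw [star_mul, mul_assoc, ← mul_assoc (star (uR.map iL)), map_u1, one_mul, map_u1])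

noncomputable def DR : R →⋆ₐ[ℂ] R ⊗[ℂ] R := ex_DR.choose
lemma DR_u : uR.map DR = uR.map iL * uR.map iR := ex_DR.choose_spec

lemma DR_ab (a b : Fin 2) : DR (uR a b) = ∑ k, uR a k ⊗ₜ uR k b := by
  have := congrFun (congrFun DR_u a) b
  simpa only [Matrix.map_apply, Matrix.mul_apply, LR] using this

lemma DR_al (g : U2) (r : R) : DR (al g r) =
    Algebra.TensorProduct.map (al g : R →ₐ[ℂ] R) (al g : R →ₐ[ℂ] R) (DR r) := by
  refine hom_ext (DR.comp (al g))
    ((Algebra.TensorProduct.map (al g : R →ₐ[ℂ] R) (al g : R →ₐ[ℂ] R)).comp (DR : R →ₐ[ℂ] _)) ?_ r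
  change (uR.map (al g)).map DR =
    (uR.map DR).map (Algebra.TensorProduct.map (al g : R →ₐ[ℂ] R) (al g : R →ₐ[ℂ] R))
  have h2 : cs (R ⊗[ℂ] R) g.1 * cs (R ⊗[ℂ] R) (star g.1) = 1 := by rw [← map_mul, g.2.2, map_one]
  have e1 : (uR.map iL).map (Algebra.TensorProduct.map (al g : R →ₐ[ℂ] R) (al g : R →ₐ[ℂ] R)) =
      (uR.map (al g)).map iL := by
    ext1 a b
    change Algebra.TensorProduct.map _ _ (_ ⊗ₜ 1) = _ ⊗ₜ 1
    simp
  have e2 : (uR.map iR).map (Algebra.TensorProduct.map (al g : R →ₐ[ℂ] R) (al g : R →ₐ[ℂ] R)) =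
      (uR.map (al g)).map iR := by
    ext1 a b
    change Algebra.TensorProduct.map _ _ (1 ⊗ₜ _) = 1 ⊗ₜ _
    simp
  rw [al_u, conj_map, DR_u, Matrix.map_mul, e1, e2, al_u, conj_map, conj_map]
  calc _ = cs _ (star g.1) * (uR.map iL * (cs (R ⊗[ℂ] R) g.1 * cs _ (star g.1)) * uR.map iR) *
        cs _ g.1 := by rw [h2, mul_one]
    _ = _ := by simp only [mul_assoc]

noncomputable def jj : R ⊗[ℂ] R →⋆ₐ[ℂ] O ⊗[ℂ] O :=
  { Algebra.TensorProduct.map (j : R →ₐ[ℂ] O) (j : R →ₐ[ℂ] O) with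
    map_star' := fun x => by
      change Algebra.TensorProduct.map _ _ (star x) = star (Algebra.TensorProduct.map _ _ x)
      induction x with
      | zero => simp
      | tmul a b => simp [map_star]
      | add a b ha hb => simp only [star_add, map_add, ha, hb] }

lemma jj_t (a b : R) : jj (a ⊗ₜ b) = j a ⊗ₜ j b := rfl

noncomputable def tt : Γ →* O ⊗[ℂ] O where
  toFun γ := t γ ⊗ₜ t γ
  map_one' := by rw [map_one]; rfl
  map_mul' a b := by rw [map_mul, Algebra.TensorProduct.tmul_mul_tmul]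

lemma ex_D : ∃ Δ : O →⋆ₐ[ℂ] O ⊗[ℂ] O, (∀ r, Δ (j r) = jj (DR r)) ∧ ∀ γ, Δ (t γ) = t γ ⊗ₜ t γ := by
  refine liftO (jj.comp DR) tt (fun γ => ?_) fun γ r => ?_
  · change star (t γ ⊗ₜ[ℂ] t γ) = t γ⁻¹ ⊗ₜ t γ⁻¹
    rw [TensorProduct.star_tmul, star_t]
  · change jj (DR (al _ r)) * (t γ ⊗ₜ t γ) = (t γ ⊗ₜ t γ) * jj (DR r)
    rw [DR_al]
    induction DR r with
    | zero => simp
    | tmul a b =>
      rw [Algebra.TensorProduct.map_tmul, jj_t, jj_t, Algebra.TensorProduct.tmul_mul_tmul,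
        Algebra.TensorProduct.tmul_mul_tmul, tj, tj]
      rfl
    | add a b ha hb => simp only [map_add, add_mul, mul_add, ha, hb]

noncomputable def D : O →⋆ₐ[ℂ] O ⊗[ℂ] O := ex_D.choose
lemma D_j (r : R) : D (j r) = jj (DR r) := ex_D.choose_spec.1 r
lemma D_t (γ : Γ) : D (t γ) = t γ ⊗ₜ t γ := ex_D.choose_spec.2 γ

lemma ex_eR : ∃ ε : R →⋆ₐ[ℂ] ℂ, uR.map ε = 1 := liftS 1 det_one (by simp)
noncomputable def eR : R →⋆ₐ[ℂ] ℂ := ex_eR.choose
lemma eR_u : uR.map eR = 1 := ex_eR.choose_spec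

lemma cs_C (g : M2 ℂ) : cs ℂ g = g := rfl

lemma eR_al (g : U2) (r : R) : eR (al g r) = eR r :=
  hom_ext (eR.comp (al g)) eR (by
    change (uR.map (al g)).map eR = _
    rw [al_u, conj_map, eR_u, mul_one, cs_C, cs_C, g.2.1]) r

lemma ex_SR : ∃ S : R →⋆ₐ[ℂ] R, uR.map S = star uR :=
  liftS _ (by rw [star_eq_conjTranspose, det_conjTranspose, det_uR, star_one])
    (by rw [star_star, uR2])

abbrev I4 := Fin 2 ⊕ Fin 2

noncomputable def u : Matrix I4 I4 O :=
  fromBlocks (uR.map j) 0 0 (diagonal fun i => t (FreeGroup.of i))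

lemma t1 (γ : Γ) : star (t γ) * t γ = 1 := by rw [star_t, ← map_mul, inv_mul_cancel, map_one]
lemma t2 (γ : Γ) : t γ * star (t γ) = 1 := by rw [star_t, ← map_mul, mul_inv_cancel, map_one]

lemma u1 : star u * u = 1 := by
  rw [u, star_eq_conjTranspose, fromBlocks_conjTranspose, fromBlocks_multiply,
    ← star_eq_conjTranspose, map_u1, diagonal_conjTranspose, diagonal_mul_diagonal]
  simp only [conjTranspose_zero, Matrix.mul_zero, Matrix.zero_mul, add_zero, zero_add,
    Pi.star_apply, t1, diagonal_one, fromBlocks_one]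

lemma u2 : u * star u = 1 := by
  rw [u, star_eq_conjTranspose, fromBlocks_conjTranspose, fromBlocks_multiply,
    ← star_eq_conjTranspose, map_u2, diagonal_conjTranspose, diagonal_mul_diagonal]
  simp only [conjTranspose_zero, Matrix.mul_zero, Matrix.zero_mul, add_zero, zero_add,
    Pi.star_apply, t2, diagonal_one, fromBlocks_one]

lemma top_of (S : StarSubalgebra ℂ O) (h1 : ∀ a b, j (uR a b) ∈ S)
    (h2 : ∀ i, t (FreeGroup.of i) ∈ S) : S = ⊤ := by
  have hj : ∀ r, j r ∈ S := fun r => by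
    induction r using R_ind with
    | h0 c => rw [AlgHomClass.commutes]; exact S.algebraMap_mem c
    | h1 a b => exact h1 a b
    | h2 x y hx hy => rw [map_add]; exact add_mem hx hy
    | h3 x y hx hy => rw [map_mul]; exact mul_mem hx hy
  have ht : ∀ γ, t γ ∈ S := fun γ => by
    induction γ using FreeGroup.induction_on with
    | C1 => rw [map_one]; exact one_mem S
    | of i => exact h2 i
    | inv_of i h => rw [← star_t]; exact star_mem h
    | mul x y hx hy => rw [map_mul]; exact mul_mem hx hy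
  rw [eq_top_iff]
  intro x hx
  clear hx
  induction x using O_ind with
  | add a b ha hb => exact add_mem ha hb
  | single γ r => rw [← jt]; exact mul_mem (hj r) (ht γ)

theorem cmqg : IsCMQG u D := by
  refine ⟨u1, u2, ?_, ?_, ?_, ?_⟩
  · refine top_of _ (fun a b => StarAlgebra.subset_adjoin ℂ _ ⟨(.inl a, .inl b), rfl⟩)
      fun i => StarAlgebra.subset_adjoin ℂ _ ⟨(.inr i, .inr i), ?_⟩
    simp [u]
  · rintro (a | a) (b | b)
    · simp only [u, Fintype.sum_sum_type, fromBlocks_apply₁₁, fromBlocks_apply₁₂,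
        Matrix.zero_apply, TensorProduct.zero_tmul, Finset.sum_const_zero, add_zero,
        Matrix.map_apply, D_j, DR_ab, _root_.map_sum, jj_t]
    · simp [u]
    · simp [u]
    · simp only [u, Fintype.sum_sum_type, fromBlocks_apply₂₂, fromBlocks_apply₂₁,
        Matrix.zero_apply, TensorProduct.zero_tmul, Finset.sum_const_zero, zero_add]
      rw [Finset.sum_eq_single a (by intro c _ hc; simp [Ne.symm hc]) (by simp)]
      by_cases h : a = b
      · subst h; simp [D_t]
      · simp [h]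
  · obtain ⟨ε, h1, h2⟩ := liftO eR 1 (by simp) (fun γ r => by simp [sm_def, eR_al])
    refine ⟨ε, ?_⟩
    rintro (a | a) (b | b)
    · have := congrFun (congrFun eR_u a) b
      simpa [u, h1, Matrix.one_apply] using this
    · simp [u]
    · simp [u]
    · by_cases h : a = b
      · subst h; simp [u, h2]
      · simp [u, h]
  · obtain ⟨S, hS⟩ := ex_SR
    have hc : ∀ g r, S (al g r) = al g (S r) := fun g =>
      hom_ext (S.comp (al g)) ((al g).comp S) (by
        change (uR.map (al g)).map S = (uR.map S).map (al g)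
        rw [al_u, conj_map, hS, star_map, al_u, star_mul, star_mul, star_cs, star_cs, star_star,
          mul_assoc])
    let f : R →⋆ₐ[ℂ] Oᵐᵒᵖ :=
      { toFun := fun r => MulOpposite.op (j (S r))
        map_one' := by simp
        map_mul' := fun a b => by rw [← MulOpposite.op_mul, ← map_mul, ← map_mul, mul_comm]
        map_zero' := by simp
        map_add' := by simp
        commutes' := fun c => by rw [AlgHomClass.commutes, AlgHomClass.commutes]; rfl
        map_star' := fun r => by rw [map_star, map_star, MulOpposite.op_star] }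
    let T : Γ →* Oᵐᵒᵖ :=
      { toFun := fun γ => MulOpposite.op (t γ⁻¹)
        map_one' := by simp
        map_mul' := fun a b => by rw [← MulOpposite.op_mul, ← map_mul, _root_.mul_inv_rev] }
    obtain ⟨Φ, h1, h2⟩ := liftO f T (fun γ => by
      change star (MulOpposite.op (t γ⁻¹)) = MulOpposite.op (t γ⁻¹⁻¹)
      rw [← MulOpposite.op_star, star_t]) (fun γ r => by
      change MulOpposite.op (t γ⁻¹ * j (S (al _ r))) = MulOpposite.op (j (S r) * t γ⁻¹)
      rw [tj, hc, ← sm_def, inv_smul_smul])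
    refine ⟨Φ, ?_⟩
    rintro (a | a) (b | b)
    · have := congrFun (congrFun hS a) b
      simp only [u, fromBlocks_apply₁₁, Matrix.map_apply, h1, ← map_star]
      exact congrArg (fun x => MulOpposite.op (j x)) this
    · simp [u]
    · simp [u]
    · by_cases h : a = b
      · subst h
        simp only [u, fromBlocks_apply₂₂, diagonal_apply_eq, h2, star_t]
        rfl
      · simp [u, h, Ne.symm h]

end Pool.Agent.H.MP_96eab8_al
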