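import Pool.Agent.H.MP_d87fde_al.Defs

namespace Pool.Agent.H.MP_96eab8_al.Defs
open scoped TensorProduct
open Pool.Agent.H.MP_d87fde_al.Defs

variable {ι O : Type} [Fintype ι] [DecidableEq ι] [Ring O] [Algebra ℂ O] [StarRing O]
  [StarModule ℂ O]

/-- no nontrivial finite quantum group quotient: a finite-dimensional algebra with a coproduct
maps compatibly only into the scalars -/
def Connected (Δ : O →⋆ₐ[ℂ] O ⊗[ℂ] O) : Prop :=
  ∀ (F : Type) [Ring F] [Algebra ℂ F] [FiniteDimensional ℂ F] (f : F →ₐ[ℂ] O)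
    (δ : F →ₐ[ℂ] F ⊗[ℂ] F), (∀ a, Δ (f a) = Algebra.TensorProduct.map f f (δ a)) →
    ∀ a, ∃ c : ℂ, f a = algebraMap ℂ O c

/-- the coproduct of P is flip invariant -/
def Central (Δ : O →⋆ₐ[ℂ] O ⊗[ℂ] O) (P : O) : Prop := TensorProduct.comm ℂ O O (Δ P) = Δ P

/-- P is nonzero in some matrix star-representation -/
def Seen (P : O) : Prop := ∃ (n : ℕ) (ρ : O →⋆ₐ[ℂ] Matrix (Fin n) (Fin n) ℂ), ρ P ≠ 0

/-- P dies in every spun diagonal torus -/
def Killed (u : Matrix ι ι O) (P : O) : Prop :=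
  ∀ Q ∈ Matrix.unitaryGroup ι ℂ, ∀ (B : Type) [Ring B] [Algebra ℂ B] [StarRing B]
    [StarModule ℂ B] (π : O →⋆ₐ[ℂ] B), (∀ i j, i ≠ j → π (spin Q u i j) = 0) → π P = 0

end Pool.Agent.H.MP_96eab8_al.Defs
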