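import Pool.Agent.H.MP_96eab8_al.C
import Pool.Agent.H.MP_96eab8_al.Defs

namespace Pool.Agent.H.MP_96eab8_al
open Matrix Complex Pool.Agent.H.MP_d87fde_al Pool.Agent.H.MP_d87fde_al.Defs Defs
open scoped TensorProduct
open SkewMonoidAlgebra (single_mul_single)

noncomputable def mm : R ⊗[ℂ] R →ₐ[ℂ] R :=
  Algebra.TensorProduct.productMap (AlgHom.id ℂ R) ((Algebra.ofId ℂ R).comp (eR : R →ₐ[ℂ] ℂ))

lemma mm_t (a b : R) : mm (a ⊗ₜ b) = eR b • a := by
  rw [Algebra.smul_def, mul_comm]; rfl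

lemma mm_DR (r : R) : mm (DR r) = r :=
  hom_ext (mm.comp (DR : R →ₐ[ℂ] R ⊗[ℂ] R)) (AlgHom.id ℂ R) (by
    ext a b
    change mm (DR (uR a b)) = uR a b
    have : ∀ k, eR (uR k b) = if k = b then 1 else 0 := fun k =>
      (congrFun (congrFun eR_u k) b).trans (Matrix.one_apply ..)
    simp only [DR_ab, _root_.map_sum, mm_t, this, ite_smul, one_smul, zero_smul,
      Finset.sum_ite_eq', Finset.mem_univ, if_true]) r

noncomputable def fn (γ : Γ) : O →ₗ[ℂ] ℂ :=
  (eR : R →ₐ[ℂ] ℂ).toLinearMap ∘ₗ Finsupp.lapply γ ∘ₗ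
    (SkewMonoidAlgebra.coeffLinearEquiv (S := ℂ) (k := R) (G := Γ)).toLinearMap

lemma fn_eq (γ : Γ) (x : O) : fn γ x = eR (x.coeff γ) := rfl

noncomputable def L (γ : Γ) : O ⊗[ℂ] O →ₗ[ℂ] O :=
  (TensorProduct.rid ℂ O).toLinearMap ∘ₗ TensorProduct.map LinearMap.id (fn γ)

lemma L_t (γ : Γ) (a b : O) : L γ (a ⊗ₜ b) = fn γ b • a := rfl

lemma L_D (γ : Γ) (x : O) : L γ (D x) = SkewMonoidAlgebra.single γ (x.coeff γ) := by
  classical
  induction x using O_ind with
  | add a b ha hb => simp [ha, hb]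
  | single δ r =>
    have : ∀ y, L γ (jj y * (t δ ⊗ₜ t δ)) = if δ = γ then SkewMonoidAlgebra.single δ (mm y) else 0 := fun y => by
      induction y with
      | zero => simp
      | tmul a b =>
        rw [jj_t, Algebra.TensorProduct.tmul_mul_tmul, jt, jt, L_t, fn_eq, mm_t,
          SkewMonoidAlgebra.coeff_single_apply]
        split_ifs
        · rw [SkewMonoidAlgebra.smul_single]
        · simp
      | add a b ha hb =>
        rw [map_add, add_mul, map_add, ha, hb, map_add]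
        split_ifs <;> simp
    rw [SkewMonoidAlgebra.coeff_single_apply, ← jt, map_mul, D_j, D_t, this, mm_DR]
    split_ifs with h
    · rw [h]
    · simp

lemma pow_single (γ : Γ) (r : R) (hr : r ≠ 0) (n : ℕ) :
    ∃ s ≠ 0, (SkewMonoidAlgebra.single γ r : O) ^ n = SkewMonoidAlgebra.single (γ ^ n) s := by
  induction n with
  | zero => exact ⟨1, one_ne_zero, by rw [pow_zero, pow_zero]; rfl⟩
  | succ n ih =>
    obtain ⟨s, h1, h2⟩ := ih
    exact ⟨s * γ ^ n • r, mul_ne_zero h1 ((smul_ne_zero_iff_ne _).2 hr),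
      by rw [pow_succ, h2, single_mul_single, pow_succ]⟩

lemma not_int (γ : Γ) (r : R) (hγ : γ ≠ 1) (h : IsIntegral ℂ (SkewMonoidAlgebra.single γ r : O)) : r = 0 := by
  classical
  by_contra hr
  obtain ⟨p, h1, h2⟩ := h
  choose s hs1 hs2 using pow_single γ r hr
  have inj : Function.Injective fun n : ℕ => γ ^ n :=
    injective_pow_iff_not_isOfFinOrder.2 fun h => hγ h.eq_one'
  rw [← Polynomial.aeval_def, Polynomial.aeval_eq_sum_range] at h2
  have := congrArg (fun x : O => (SkewMonoidAlgebra.coeffLinearEquiv (S := ℂ) (k := R) (G := Γ)) x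
    (γ ^ p.natDegree)) h2
  simp only [_root_.map_sum, map_smul, map_zero, Finsupp.coe_finsetSum, Finset.sum_apply, hs2,
    Finsupp.smul_apply, Finsupp.zero_apply] at this
  rw [Finset.sum_eq_single p.natDegree] at this
  · rw [h1.coeff_natDegree, one_smul] at this
    exact hs1 _ (Finsupp.single_eq_same.symm.trans this)
  · intro b _ hb
    have : Finsupp.single (γ ^ b) (s b) (γ ^ p.natDegree) = 0 :=
      Finsupp.single_eq_of_ne fun e => hb (inj e).symm
    exact (congrArg (p.coeff b • ·) this).trans (smul_zero _)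
  · simp

theorem conn : Connected D := by
  intro F _ _ _ f δ h a
  have k1 : ∀ γ y, L γ (Algebra.TensorProduct.map f f y) ∈ f.range := fun γ y => by
    induction y with
    | zero => simp
    | tmul a b => exact Subalgebra.smul_mem _ (f.mem_range_self a) _
    | add a b ha hb => rw [map_add, map_add]; exact add_mem ha hb
  have k2 : ∀ γ, IsIntegral ℂ (SkewMonoidAlgebra.single γ ((f a).coeff γ) : O) := fun γ => by
    obtain ⟨b, hb⟩ := k1 γ (δ a)
    rw [← h, L_D] at hb
    rw [← hb]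
    exact (Algebra.IsIntegral.isIntegral b).map f
  have inj : Function.Injective (j : R →ₐ[ℂ] O) := SkewMonoidAlgebra.single_injective 1
  have k3 : IsIntegral ℂ ((f a).coeff 1) := (isIntegral_algHom_iff (j : R →ₐ[ℂ] O) inj).1 (k2 1)
  obtain ⟨c, hc⟩ := minpoly.mem_range_of_degree_eq_one ℂ _
    (IsAlgClosed.degree_eq_one_of_irreducible ℂ (minpoly.irreducible k3))
  refine ⟨c, SkewMonoidAlgebra.ext fun γ => ?_⟩
  change _ = Finsupp.single 1 (algebraMap ℂ R c) γ
  by_cases e : γ = 1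
  · rw [e, hc, Finsupp.single_eq_same]
  · rw [not_int γ _ e (k2 γ), Finsupp.single_eq_of_ne e]

noncomputable def chi : R := uR 0 0 + uR 1 1
noncomputable def PP : O := j (4 - chi * chi)

theorem central : TensorProduct.comm ℂ O O (D PP) = D PP := by
  have h : Algebra.TensorProduct.comm ℂ O O (D (j chi)) = D (j chi) := by
    simp only [chi, D_j, map_add, DR_ab, Fin.sum_univ_two, jj_t, Algebra.TensorProduct.comm_tmul]
    abel
  change Algebra.TensorProduct.comm ℂ O O (D PP) = D PP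
  simp only [PP, map_sub, map_mul, h, map_ofNat]

lemma key2 (W : Set (M2 ℂ)) (h0 : ∀ M ∈ W, star g0 * M * g0 ∈ W) (h1 : ∀ M ∈ W, star g1 * M * g1 ∈ W)
    (hc : ∀ M ∈ W, ∀ N ∈ W, M * N = N * M) (M : M2 ℂ) (hM : M ∈ W) :
    M 0 1 = 0 ∧ M 1 0 = 0 ∧ M 0 0 = M 1 1 := by
  have a := hc M hM _ (h0 M hM)
  have b := hc M hM _ (h1 M hM)
  have a1 := congrFun (congrFun a 0) 1
  have a2 := congrFun (congrFun a 1) 0
  have b1 := congrFun (congrFun b 0) 0
  have b2 := congrFun (congrFun b 0) 1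
  rw [sg0] at a1 a2
  rw [sg1] at b1 b2
  simp only [g0, g1, Matrix.mul_apply, Fin.sum_univ_two, of_apply, cons_val', cons_val_zero,
    cons_val_one, cons_val_fin_one] at a1 a2 b1 b2
  generalize M 0 0 = x at *
  generalize M 0 1 = y at *
  generalize M 1 0 = z at *
  generalize M 1 1 = w at *
  have i2 : I ^ 2 = -1 := I_sq
  have e1 : y * (x - w) = 0 := by linear_combination (1 / 2) * a1 * (-1)
  have e2 : z * (x - w) = 0 := by linear_combination (1 / 2) * a2
  generalize I = i at *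
  have e3 : (y + z) ^ 2 = 0 := by grind
  have e4 : z = -y := eq_neg_of_add_eq_zero_right (pow_eq_zero_iff two_ne_zero |>.1 e3)
  subst e4
  have e5 : (x - w) ^ 3 = 0 := by grind
  have e6 : x = w := sub_eq_zero.1 (pow_eq_zero_iff three_ne_zero |>.1 e5)
  subst e6
  have e7 : y ^ 2 = 0 := by grind
  have e8 : y = 0 := pow_eq_zero_iff two_ne_zero |>.1 e7
  simp [e8]

end Pool.Agent.H.MP_96eab8_al
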