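import Pool.Agent.H.MP_96eab8_al.D

namespace Pool.Agent.H.MP_96eab8_al
open Matrix Complex Pool.Agent.H.MP_d87fde_al Pool.Agent.H.MP_d87fde_al.Defs Defs
open scoped TensorProduct

lemma rho_of (i : Fin 2) : rho (FreeGroup.of i) = gg i := FreeGroup.lift_apply_of

theorem kill (Q : Matrix I4 I4 ℂ) (hQ : Q ∈ unitaryGroup I4 ℂ) (B : Type) [Ring B] [Algebra ℂ B]
    [StarRing B] [StarModule ℂ B] (π : O →⋆ₐ[ℂ] B) (h : ∀ i j, i ≠ j → π (spin Q u i j) = 0) :
    π PP = 0 := by
  obtain ⟨-, h2, -⟩ := torus u u1 u2 Q hQ π h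
  let V : M2 B := uR.map (π.comp j)
  let W : Set (M2 ℂ) := Set.range fun φ : B →ₗ[ℂ] ℂ => V.map φ
  have inv : ∀ γ, ∀ M ∈ W, star (rho γ).1 * M * (rho γ).1 ∈ W := by
    rintro γ _ ⟨φ, rfl⟩
    refine ⟨φ ∘ₗ LinearMap.mulLeft ℂ (π (t γ)) ∘ₗ LinearMap.mulRight ℂ (π (t γ⁻¹)), ?_⟩
    have e : (uR.map (al (rho γ))).map (π.comp j) = cs B (star (rho γ).1) * V * cs B (rho γ).1 := by
      rw [al_u, conj_map]
    ext a b
    have e1 := congrFun (congrFun e a) b
    have e2 : π (t γ) * (π (j (uR a b)) * π (t γ⁻¹)) = π (j (al (rho γ) (uR a b))) := by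
      rw [← mul_assoc, ← map_mul, tj, ← map_mul, mul_assoc, ← map_mul, mul_inv_cancel, map_one,
        mul_one, sm_def]
    change φ (π (t γ) * (π (j (uR a b)) * π (t γ⁻¹))) = _
    rw [e2]
    refine (congrArg φ e1).trans ?_
    simp only [Matrix.mul_apply, cs_apply, ← Algebra.commutes, ← Algebra.smul_def, map_sum,
      map_smul, smul_eq_mul, Matrix.map_apply]
    exact Finset.sum_congr rfl fun _ _ => mul_comm _ _
  have com : ∀ M ∈ W, ∀ N ∈ W, M * N = N * M := by
    rintro _ ⟨φ, rfl⟩ _ ⟨ψ, rfl⟩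
    ext a b
    have := congrFun (congrFun (slice_comm (u.map π) Q hQ _ h2 φ ψ) (.inl a)) (.inl b)
    simp only [Matrix.mul_apply, Fintype.sum_sum_type, u, Matrix.map_apply, fromBlocks_apply₁₁,
      fromBlocks_apply₁₂, Matrix.zero_apply, map_zero, zero_mul, Finset.sum_const_zero,
      add_zero] at this
    exact this
  have k := fun φ : B →ₗ[ℂ] ℂ => key2 W (by simpa [rho_of, gg] using inv (.of 0))
    (by simpa [rho_of, gg] using inv (.of 1)) com _ ⟨φ, rfl⟩
  have k1 : V 0 1 = 0 := (Module.forall_dual_apply_eq_zero_iff ℂ _).1 fun φ => (k φ).1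
  have k3 : V 0 0 - V 1 1 = 0 := (Module.forall_dual_apply_eq_zero_iff ℂ _).1 fun φ => by
    rw [map_sub]; exact sub_eq_zero.2 (k φ).2.2
  have e : 4 - chi * chi = -4 * uR 1 0 * uR 0 1 - (uR 0 0 - uR 1 1) * (uR 0 0 - uR 1 1) := by
    have := det_uR
    rw [det_fin_two] at this
    rw [chi]
    linear_combination -4 * this
  change (π.comp j) (4 - chi * chi) = 0
  rw [e, map_sub, map_mul, map_mul (π.comp j) (_ - _), map_sub]
  change _ * V 0 1 - (V 0 0 - V 1 1) * _ = 0
  rw [k1, k3, mul_zero, zero_mul, sub_zero]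

noncomputable def pt : Fin 6 → M2 ℂ :=
  ![!![I, 0; 0, -I], !![0, I; I, 0], !![0, 1; -1, 0], !![-I, 0; 0, I], !![0, -I; -I, 0],
    !![0, -1; 1, 0]]

def sg : Fin 2 → Equiv.Perm (Fin 6) :=
  ![Equiv.swap 1 4 * Equiv.swap 2 5, ⟨![1, 2, 0, 4, 5, 3], ![2, 0, 1, 5, 3, 4], by decide, by decide⟩]

lemma pt_det (x : Fin 6) : (pt x).det = 1 := by
  fin_cases x <;> simp [pt, det_fin_two]

lemma pt_u (x : Fin 6) : star (pt x) * pt x = 1 := by
  ext a b
  fin_cases x <;> fin_cases a <;> fin_cases b <;> simp [pt, Matrix.mul_apply]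

lemma pt_sg (i : Fin 2) (x : Fin 6) : star (gg i).1 * pt x * (gg i).1 = pt (sg i x) := by
  fin_cases i
  · change star g0 * pt x * g0 = pt ((Equiv.swap 1 4 * Equiv.swap 2 5 : Equiv.Perm (Fin 6)) x)
    rw [sg0]
    fin_cases x <;> simp [pt, g0, Equiv.swap_apply_def]
  · change star g1 * pt x * g1 = pt (![1, 2, 0, 4, 5, 3] x)
    rw [sg1]
    have i2 : I ^ 2 = -1 := I_sq
    fin_cases x <;> simp [pt, g1] <;> grind

theorem rep : ∃ ρ : O →⋆ₐ[ℂ] Matrix (Fin 6) (Fin 6) ℂ, ρ PP ≠ 0 := by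
  choose ev hev using fun x => liftS (pt x) (pt_det x) (pt_u x)
  let f : R →⋆ₐ[ℂ] Matrix (Fin 6) (Fin 6) ℂ :=
    { (diagonalAlgHom ℂ).comp (AlgHom.pi fun x => (ev x : R →ₐ[ℂ] ℂ)) with
      map_star' := fun r => by
        change diagonal (fun x => ev x (star r)) = star (diagonal fun x => ev x r)
        rw [star_eq_conjTranspose, diagonal_conjTranspose]
        simp only [map_star]
        rfl }
  have hf : ∀ r, f r = diagonal fun x => ev x r := fun _ => rfl
  let s : Γ →* (Equiv.Perm (Fin 6))ᵐᵒᵖ := FreeGroup.lift fun i => MulOpposite.op (sg i)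
  have hs : ∀ γ x r, ev x (γ • r) = ev ((s γ).unop x) r := fun γ => by
    induction γ using FreeGroup.induction_on with
    | C1 => simp
    | of i =>
      intro x r
      have : (s (.of i)).unop = sg i := by simp [s]
      rw [this, sm_def, rho_of]
      refine hom_ext ((ev x).comp (al (gg i))) _ ?_ r
      change (uR.map (al (gg i))).map (ev x) = _
      rw [al_u, conj_map, hev, hev, cs_C, cs_C, pt_sg]
    | inv_of i h =>
      intro x r
      have := h ((s (.of i)⁻¹).unop x) ((FreeGroup.of i : Γ)⁻¹ • r)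
      rw [smul_inv_smul] at this
      rw [this]
      simp
    | mul a b ha hb => intro x r; rw [mul_smul, ha, hb, map_mul]; rfl
  let T : Γ →* Matrix (Fin 6) (Fin 6) ℂ :=
    { toFun := fun γ => of fun x y => if (s γ).unop x = y then 1 else 0
      map_one' := by ext x y; simp [Matrix.one_apply]
      map_mul' := fun a b => by
        ext x y
        simp only [Matrix.mul_apply, of_apply, ite_mul, one_mul, zero_mul, Finset.sum_ite_eq,
          Finset.mem_univ, if_true, map_mul, MulOpposite.unop_mul, Equiv.Perm.mul_apply] }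
  have hT : ∀ γ x y, T γ x y = if (s γ).unop x = y then 1 else 0 := fun _ _ _ => rfl
  obtain ⟨ρ, h1, -⟩ := liftO f T (fun γ => by
    ext x y
    simp only [star_apply, hT, map_inv, MulOpposite.unop_inv, Equiv.Perm.inv_eq_iff_eq]
    by_cases e : (s γ).unop y = x
    · simp [e]
    · simp [e, Ne.symm e]) (fun γ r => by
    ext x y
    simp only [hf, diagonal_mul, mul_diagonal, hT, hs]
    split_ifs with e <;> simp [e])
  refine ⟨ρ, fun h => ?_⟩
  have := congrFun (congrFun h 0) 0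
  have e : ∀ a b, ev 0 (uR a b) = pt 0 a b := fun a b => congrFun (congrFun (hev 0) a) b
  rw [PP, h1, hf] at this
  simp [chi, e, pt, map_ofNat] at this

end Pool.Agent.H.MP_96eab8_al
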